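import Pool.Agent.Helper63.GW.StA
import Pool.Agent.Helper68.MR.MV
import Pool.Agent.Helper2.MR.Dec

/-! # GW module MEA8: mean value of products of eight block polynomials -/

set_option autoImplicit false

namespace Pool.Agent.Helper65.GW

open Finset ArithmeticFunction MeasureTheory
open Pool.Agent.Helper2.MR (ch StMV)
open Pool.Agent.Helper23.GK
open Pool.Agent.Helper63.GW

open scoped Pointwise in
private lemma mea_submul (m n : ℕ) :
    (m * n).divisors.card ≤ m.divisors.card * n.divisors.card := by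
  rw [Nat.divisors_mul]
  exact Finset.card_mul_le

private lemma mea_tau (k : ℕ) : ∀ P : ℕ, 1 ≤ P →
    ∑ n ∈ Icc 1 P, ((n.divisors.card : ℝ)) ^ k / n ≤ (1 + Real.log P) ^ (2 ^ k) := by
  induction k with
  | zero =>
    intro P hP
    have h := harmonic_le_one_add_log P
    rw [harmonic_eq_sum_Icc] at h
    push_cast at h
    simpa using h
  | succ k ih =>
    intro P hP
    have h1 : ∀ n ∈ Icc 1 P, ((n.divisors.card : ℝ)) ^ (k + 1) / n ≤
        ∑ x ∈ (Icc 1 P ×ˢ Icc 1 P).filter (fun x => x.1 * x.2 = n),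
          (((x.1.divisors.card : ℝ)) ^ k / x.1) * (((x.2.divisors.card : ℝ)) ^ k / x.2) := by
      intro n hn
      rw [mem_Icc] at hn
      have hD : n.divisorsAntidiagonal = (Icc 1 P ×ˢ Icc 1 P).filter (fun x => x.1 * x.2 = n) := by
        ext x
        simp only [Nat.mem_divisorsAntidiagonal, mem_filter, mem_product, mem_Icc]
        constructor
        · rintro ⟨h, h0⟩
          have h1 : 0 < x.1 := Nat.pos_of_ne_zero (by rintro h'; rw [h'] at h; simp at h; omega)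
          have h2 : 0 < x.2 := Nat.pos_of_ne_zero (by rintro h'; rw [h'] at h; simp at h; omega)
          refine ⟨⟨⟨h1, ?_⟩, ⟨h2, ?_⟩⟩, h⟩
          · exact (Nat.le_mul_of_pos_right _ h2).trans (h.le.trans hn.2)
          · exact (Nat.le_mul_of_pos_left _ h1).trans (h.le.trans hn.2)
        · rintro ⟨_, h⟩
          exact ⟨h, by omega⟩
      rw [← hD]
      have hcard : (n.divisors.card : ℝ) = ∑ x ∈ n.divisorsAntidiagonal, (1 : ℝ) := by
        rw [sum_const, nsmul_eq_mul, mul_one]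
        congr 1
        rw [← Nat.map_div_right_divisors, card_map]
      rw [pow_succ, mul_comm, mul_div_assoc]
      nth_rewrite 1 [hcard]
      rw [sum_mul]
      apply sum_le_sum
      intro x hx
      rw [Nat.mem_divisorsAntidiagonal] at hx
      obtain ⟨hx, hx0⟩ := hx
      rw [one_mul, ← hx]
      have h3 : (((x.1 * x.2).divisors.card : ℕ) : ℝ) ≤ x.1.divisors.card * x.2.divisors.card := by
        exact_mod_cast mea_submul x.1 x.2
      rw [div_mul_div_comm, ← mul_pow]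
      push_cast
      gcongr
    refine (sum_le_sum h1).trans ?_
    rw [Finset.sum_fiberwise_eq_sum_filter]
    refine (Finset.sum_le_sum_of_subset_of_nonneg (filter_subset _ _)
      (fun _ _ _ => by positivity)).trans ?_
    rw [Finset.sum_product]
    simp only []
    rw [← Finset.sum_mul_sum, pow_succ, mul_comm (2 ^ k) 2, two_mul, pow_add]
    have h0 : 0 ≤ ∑ n ∈ Icc 1 P, ((n.divisors.card : ℝ)) ^ k / n :=
      sum_nonneg (fun _ _ => by positivity)
    have hl : 0 ≤ Real.log P := Real.log_natCast_nonneg P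
    exact mul_le_mul (ih P hP) (ih P hP) h0 (by positivity)

private lemma mea_ch (t : ℝ) (s : Finset (Fin 8)) (x : Fin 8 → ℕ) (hx : ∀ i, x i ≠ 0) :
    ch t (∏ i ∈ s, x i) = ∏ i ∈ s, ch t (x i) := by
  classical
  induction s using Finset.induction_on with
  | empty => simp [ch]
  | insert a s ha ih =>
    rw [prod_insert ha, prod_insert ha,
      Pool.Agent.Helper2.MR.Decx.ch_mul t (hx a) (Finset.prod_ne_zero_iff.2 (fun i _ => hx i)), ih]

/-- coefficients of the product -/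
private noncomputable def mea_d (a : Fin 8 → ℕ → ℂ) (e : Fin 8 → ℕ) (n : ℕ) : ℂ :=
  ∑ x ∈ (Fintype.piFinset (fun i => Icc 1 (2 ^ (e i + 1)))).filter (fun x => ∏ i, x i = n),
    ∏ i, (a i (x i) / (x i : ℂ))

private lemma mea_prod (a : Fin 8 → ℕ → ℂ) (e : Fin 8 → ℕ) (t : ℝ) :
    ∏ i, (∑ n ∈ Icc 1 (2 ^ (e i + 1)), a i n * ch t n / n) =
      ∑ n ∈ Icc 1 (2 ^ (∑ i, (e i + 1))), mea_d a e n * ch t n := by
  rw [Finset.prod_univ_sum]
  unfold mea_d
  simp_rw [Finset.sum_mul]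
  have h1 : ∀ n ∈ Icc 1 (2 ^ (∑ i, (e i + 1))),
      ∑ x ∈ (Fintype.piFinset (fun i => Icc 1 (2 ^ (e i + 1)))).filter (fun x => ∏ i, x i = n),
        (∏ i, (a i (x i) / (x i : ℂ))) * ch t n =
      ∑ x ∈ (Fintype.piFinset (fun i => Icc 1 (2 ^ (e i + 1)))).filter (fun x => ∏ i, x i = n),
        ∏ i, (a i (x i) * ch t (x i) / (x i : ℂ)) := by
    intro n _
    apply sum_congr rfl
    intro x hx
    rw [mem_filter, Fintype.mem_piFinset] at hx
    rw [← hx.2, mea_ch t univ x (fun i => by have := (mem_Icc.1 (hx.1 i)).1; omega),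
      ← prod_mul_distrib]
    apply prod_congr rfl
    intro i _
    ring
  rw [sum_congr rfl h1, Finset.sum_fiberwise_of_maps_to]
  intro x hx
  rw [Fintype.mem_piFinset] at hx
  rw [mem_Icc]
  constructor
  · exact Nat.one_le_iff_ne_zero.2 (Finset.prod_ne_zero_iff.2 (fun i _ => by
      have := (mem_Icc.1 (hx i)).1; omega))
  · rw [← Finset.prod_pow_eq_pow_sum]
    exact Finset.prod_le_prod' (fun i _ => (mem_Icc.1 (hx i)).2)

private lemma mea_dle (a : Fin 8 → ℕ → ℂ) (e : Fin 8 → ℕ) (K : ℝ) (hK : 1 ≤ K)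
    (ha : ∀ i n, 1 ≤ n → ‖a i n‖ ≤ K)
    (hs : ∀ i n, 1 ≤ n → a i n ≠ 0 → 2 ^ (e i) ≤ 2 * n) (n : ℕ) (hn : 1 ≤ n) :
    ‖mea_d a e n‖ ^ 2 ≤ 256 * K ^ 16 / 2 ^ (∑ i, e i) * ((n.divisors.card : ℝ) ^ 16 / n) := by
  by_cases h0 : mea_d a e n = 0
  · rw [h0, norm_zero, zero_pow two_ne_zero]
    positivity
  unfold mea_d at h0 ⊢
  set F := (Fintype.piFinset (fun i => Icc 1 (2 ^ (e i + 1)))).filter
    (fun x => ∏ i, x i = n) with hF
  obtain ⟨x0, hx0, hx1⟩ := Finset.exists_ne_zero_of_sum_ne_zero h0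
  have hn0 : (0 : ℝ) < n := by exact_mod_cast hn
  have hbig : (2 : ℝ) ^ (∑ i, e i) ≤ 256 * n := by
    rw [hF, mem_filter, Fintype.mem_piFinset] at hx0
    rw [Finset.prod_ne_zero_iff] at hx1
    rw [← Finset.prod_pow_eq_pow_sum, ← hx0.2]
    push_cast
    have h2 : (256 : ℝ) = ∏ _i : Fin 8, 2 := by simp; norm_num
    rw [h2, ← prod_mul_distrib]
    apply prod_le_prod
    · intro i _; positivity
    · intro i _
      have h3 : a i (x0 i) ≠ 0 := by
        intro h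
        apply hx1 i (mem_univ i)
        rw [h, zero_div]
      exact_mod_cast hs i (x0 i) (mem_Icc.1 (hx0.1 i)).1 h3
  have hcard : F.card ≤ n.divisors.card ^ 8 := by
    have : F ⊆ Fintype.piFinset (fun _ : Fin 8 => n.divisors) := by
      intro x hx
      rw [hF, mem_filter, Fintype.mem_piFinset] at hx
      rw [Fintype.mem_piFinset]
      intro i
      rw [Nat.mem_divisors]
      refine ⟨?_, by omega⟩
      rw [← hx.2]
      exact Finset.dvd_prod_of_mem _ (mem_univ i)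
    have h := card_le_card this
    simpa using h
  have h1 : ‖∑ x ∈ F, ∏ i, (a i (x i) / (x i : ℂ))‖ ≤ (n.divisors.card : ℝ) ^ 8 * (K ^ 8 / n) := by
    refine (norm_sum_le _ _).trans ?_
    have h2 : ∀ x ∈ F, ‖∏ i, (a i (x i) / (x i : ℂ))‖ ≤ K ^ 8 / n := by
      intro x hx
      rw [hF, mem_filter, Fintype.mem_piFinset] at hx
      rw [norm_prod]
      have h3 : (K ^ 8 / n : ℝ) = ∏ i : Fin 8, (K / (x i : ℝ)) := by
        rw [prod_div_distrib, ← hx.2]
        simp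
      rw [h3]
      apply prod_le_prod
      · intro i _; positivity
      · intro i _
        rw [norm_div, Complex.norm_natCast]
        gcongr
        exact ha i _ (mem_Icc.1 (hx.1 i)).1
    refine (sum_le_sum h2).trans ?_
    rw [sum_const, nsmul_eq_mul]
    gcongr
    exact_mod_cast hcard
  calc ‖∑ x ∈ F, ∏ i, (a i (x i) / (x i : ℂ))‖ ^ 2
      ≤ ((n.divisors.card : ℝ) ^ 8 * (K ^ 8 / n)) ^ 2 := by gcongr
    _ = K ^ 16 * (1 / n) * ((n.divisors.card : ℝ) ^ 16 / n) := by ring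
    _ ≤ K ^ 16 * (256 / 2 ^ (∑ i, e i)) * ((n.divisors.card : ℝ) ^ 16 / n) := by
        have h9 : (1 : ℝ) / n ≤ 256 / 2 ^ (∑ i, e i) := by
          rw [div_le_div_iff₀ hn0 (by positivity)]
          linarith
        gcongr
    _ = _ := by ring

private lemma mea_univ (C0 : ℝ) (hC0 : 0 < C0)
    (hMV : ∀ (T : ℝ) (N : ℕ) (a : ℕ → ℂ), 1 ≤ T → 1 ≤ N →
      ∫ t in (-T)..T, ‖∑ n ∈ Icc 1 N, a n * ch t n‖ ^ 2
        ≤ C0 * (T + N) * ∑ n ∈ Icc 1 N, ‖a n‖ ^ 2)
    (m : ℕ) (hm : ∀ P : ℕ, 1 ≤ P → ∑ n ∈ Icc 1 P, ((n.divisors.card : ℝ)) ^ 16 / n ≤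
      (1 + Real.log P) ^ m)
    (a : Fin 8 → ℕ → ℂ) (e : Fin 8 → ℕ) (K T : ℝ) (hT : 1 ≤ T) (hK : 1 ≤ K)
    (ha : ∀ i n, 1 ≤ n → ‖a i n‖ ≤ K)
    (hs : ∀ i n, 1 ≤ n → a i n ≠ 0 → 2 ^ (e i) ≤ 2 * n) :
    ∫ t in (-T)..T, ∏ i, ‖∑ n ∈ Icc 1 (2 ^ (e i + 1)), a i n * ch t n / n‖ ^ 2 ≤
      65536 * C0 * 9 ^ m * K ^ 16 * (T / 2 ^ (∑ i, e i) + 1) *
        (1 + ∑ i, (e i : ℝ)) ^ m := by
  set P : ℕ := 2 ^ (∑ i, e i) with hP
  have hN : 2 ^ (∑ i, (e i + 1)) = 256 * P := by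
    rw [hP, sum_add_distrib, pow_add]
    simp
    ring
  have hP1 : 1 ≤ P := Nat.one_le_two_pow
  have hPr : (P : ℝ) = 2 ^ (∑ i, e i) := by rw [hP]; push_cast; rfl
  have hP0 : (0 : ℝ) < P := by exact_mod_cast hP1
  have h1 : ∀ t : ℝ, ∏ i, ‖∑ n ∈ Icc 1 (2 ^ (e i + 1)), a i n * ch t n / n‖ ^ 2 =
      ‖∑ n ∈ Icc 1 (256 * P), mea_d a e n * ch t n‖ ^ 2 := by
    intro t
    rw [← hN, ← mea_prod, norm_prod, ← prod_pow]
  simp_rw [h1]
  refine (hMV T (256 * P) _ hT (by omega)).trans ?_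
  have hE0 : (0 : ℝ) ≤ ∑ i, (e i : ℝ) := by positivity
  have h2 : ∑ n ∈ Icc 1 (256 * P), ‖mea_d a e n‖ ^ 2 ≤
      256 * K ^ 16 / P * (9 ^ m * (1 + ∑ i, (e i : ℝ)) ^ m) := by
    have h3 : ∑ n ∈ Icc 1 (256 * P), ‖mea_d a e n‖ ^ 2 ≤
        ∑ n ∈ Icc 1 (256 * P), 256 * K ^ 16 / P * ((n.divisors.card : ℝ) ^ 16 / n) := by
      apply sum_le_sum
      intro n hn
      rw [hPr]
      exact mea_dle a e K hK ha hs n (mem_Icc.1 hn).1
    refine h3.trans ?_
    rw [← mul_sum]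
    have h4 := hm (256 * P) (by omega)
    have h5 : 1 + Real.log ((256 * P : ℕ) : ℝ) ≤ 9 * (1 + ∑ i, (e i : ℝ)) := by
      have e1 : ((256 * P : ℕ) : ℝ) = 2 ^ (8 + ∑ i, e i) := by
        push_cast
        rw [hPr, pow_add]
        norm_num
      rw [e1, Real.log_pow]
      push_cast
      have h8 : Real.log 2 ≤ 1 := by linarith [Real.log_two_lt_d9]
      nlinarith
    have h7 : 0 ≤ Real.log ((256 * P : ℕ) : ℝ) := Real.log_natCast_nonneg _
    refine mul_le_mul_of_nonneg_left ?_ (by positivity)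
    rw [← mul_pow]
    exact h4.trans (pow_le_pow_left₀ (by positivity) h5 _)
  have h6 : T + ((256 * P : ℕ) : ℝ) ≤ 256 * (T + P) := by
    push_cast
    linarith
  have hX : 0 ≤ 256 * K ^ 16 / P * (9 ^ m * (1 + ∑ i, (e i : ℝ)) ^ m) := by
    have := pow_nonneg (show (0 : ℝ) ≤ 1 + ∑ i, (e i : ℝ) by linarith) m
    have h9 : (0 : ℝ) ≤ 9 ^ m := pow_nonneg (by norm_num) _
    exact mul_nonneg (by positivity) (mul_nonneg h9 this)
  calc C0 * (T + ((256 * P : ℕ) : ℝ)) * ∑ n ∈ Icc 1 (256 * P), ‖mea_d a e n‖ ^ 2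
      ≤ C0 * (256 * (T + P)) *
        (256 * K ^ 16 / P * (9 ^ m * (1 + ∑ i, (e i : ℝ)) ^ m)) := by
        refine mul_le_mul (mul_le_mul_of_nonneg_left h6 hC0.le) h2
          (sum_nonneg fun _ _ => by positivity) (by positivity)
    _ = _ := by
        rw [← hPr]
        generalize (9 : ℝ) ^ m = u
        generalize (1 + ∑ i, (e i : ℝ)) ^ m = v
        field_simp
        ring

theorem hMEA8 : StBkb → StMea8 := by
  rintro ⟨hb1, hb2, -, -⟩
  obtain ⟨C0, hC0, hMV⟩ := Pool.Agent.Helper68.MR.mv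
  obtain ⟨m, hm⟩ : ∃ m : ℕ, ∀ P : ℕ, 1 ≤ P →
      ∑ n ∈ Icc 1 P, ((n.divisors.card : ℝ)) ^ 16 / n ≤ (1 + Real.log P) ^ m :=
    ⟨_, mea_tau 16⟩
  set Cr : ℝ := 65536 * C0 * 9 ^ m with hCr
  refine ⟨max (16 + m) ⌈Cr⌉₊, ?_⟩
  intro q χ e S c T hT
  classical
  set Ss : ℝ := ∑ i ∈ S, (e i : ℝ) with hSs
  have hSs0 : 0 ≤ Ss := by positivity
  set K : ℝ := 1 + Ss with hK
  have hK1 : 1 ≤ K := by rw [hK]; linarith
  set e' : Fin 8 → ℕ := fun i => if i ∈ S then e i else 0 with he'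
  set a' : Fin 8 → ℕ → ℂ := fun i n => if i ∈ S then
    ((w0 i (e i) n : ℝ) : ℂ) * χ (n : ZMod q) * ch c n else (if n = 1 then 1 else 0) with ha'
  have hch : ∀ (t : ℝ) (n : ℕ), ‖ch t n‖ = 1 := by
    intro t n
    unfold ch
    rw [Complex.norm_exp_ofReal_mul_I]
  have h := mea_univ C0 hC0 hMV m hm a' e' K T hT hK1 (by
    intro i n hn
    by_cases hi : i ∈ S
    · simp only [ha', if_pos hi]
      rw [norm_mul, norm_mul, hch, mul_one, Complex.norm_real, Real.norm_eq_abs]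
      have h1 := hb1 i (e i) n hn
      have h2 := DirichletCharacter.norm_le_one χ (n : ZMod q)
      have h3 : (e i : ℝ) ≤ Ss :=
        Finset.single_le_sum (f := fun i => (e i : ℝ)) (fun _ _ => by positivity) hi
      calc |w0 i (e i) n| * ‖χ (n : ZMod q)‖ ≤ (1 + e i) * 1 :=
            mul_le_mul h1 h2 (norm_nonneg _) (by positivity)
        _ ≤ K := by rw [hK]; linarith
    · simp only [ha', if_neg hi]
      split_ifs
      · simpa using hK1
      · simp only [norm_zero]; linarith) (by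
    intro i n hn h0
    by_cases hi : i ∈ S
    · simp only [ha', he', if_pos hi] at h0 ⊢
      have h1 : w0 i (e i) n ≠ 0 := by
        intro h
        apply h0
        rw [h]
        simp
      exact (hb2 i (e i) n hn h1).1
    · simp only [he', if_neg hi]
      omega)
  have h1 : ∑ i, e' i = ∑ i ∈ S, e i := by
    rw [he', Finset.sum_ite_mem, univ_inter]
  have h2 : ∑ i, (e' i : ℝ) = Ss := by
    have : (∑ i, (e' i : ℝ)) = ((∑ i, e' i : ℕ) : ℝ) := by push_cast; rfl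
    rw [this, h1]; push_cast; rfl
  have h3 : ∀ t : ℝ, ∏ i, ‖∑ n ∈ Icc 1 (2 ^ (e' i + 1)), a' i n * ch t n / n‖ ^ 2 =
      ∏ i ∈ S, ‖bk χ i (e i) (t + c)‖ ^ 2 := by
    intro t
    rw [← Finset.prod_subset (subset_univ S)]
    · apply prod_congr rfl
      intro i hi
      simp only [he', ha', if_pos hi, bk]
      congr 2
      apply sum_congr rfl
      intro n _
      have e1 : ch (t + c) n = ch c n * ch t n := by
        unfold ch
        rw [← Complex.exp_add]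
        congr 1
        push_cast
        ring
      rw [e1]
      ring
    · intro i _ hi
      simp only [he', ha', if_neg hi]
      have e2 : Icc 1 (2 ^ (0 + 1)) = ({1, 2} : Finset ℕ) := by decide
      rw [e2, Finset.sum_pair (by norm_num)]
      simp [ch]
  simp_rw [h3] at h
  rw [h1, h2] at h
  have h4 : ∫ t in (-T)..T, ∏ i ∈ S, ‖bk χ i (e i) (t + c)‖ ^ 2 =
      ∫ t in (c - T)..(c + T), ∏ i ∈ S, ‖bk χ i (e i) t‖ ^ 2 := by
    rw [intervalIntegral.integral_comp_add_right (fun t => ∏ i ∈ S, ‖bk χ i (e i) t‖ ^ 2)]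
    congr 1 <;> ring
  rw [h4] at h
  refine h.trans ?_
  have hC1 : Cr ≤ ((max (16 + m) ⌈Cr⌉₊ : ℕ) : ℝ) :=
    (Nat.le_ceil _).trans (by exact_mod_cast le_max_right _ _)
  have hCr0 : 0 ≤ Cr := by
    rw [hCr]
    have h9 : (0 : ℝ) ≤ 9 ^ m := pow_nonneg (by norm_num) _
    exact mul_nonneg (by positivity) h9
  have hTP : 0 ≤ T / 2 ^ (∑ i ∈ S, e i) + 1 := by positivity
  have e3 : 65536 * C0 * 9 ^ m * K ^ 16 * (T / 2 ^ (∑ i ∈ S, e i) + 1) *
      (1 + Ss) ^ m = Cr * (T / 2 ^ (∑ i ∈ S, e i) + 1) * K ^ (16 + m) := by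
    rw [← hCr, ← hK, pow_add]
    generalize K ^ m = v
    ring
  rw [e3]
  refine mul_le_mul (mul_le_mul_of_nonneg_right hC1 hTP) ?_ (pow_nonneg (by linarith) _)
    (mul_nonneg (by positivity) hTP)
  exact pow_le_pow_right₀ hK1 (le_max_left _ _)

end Pool.Agent.Helper65.GW
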